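import Pool.Agent.Lib.Pad47bbP.Quot

/-!
Faces: a rational polyhedral fundamental domain for a group on a cone gives one for the stabilizer
of a face on this face.
-/

open Set Topology

namespace Pool.Agent.Lib.Pad47bbF

open Pool.Agent.Lib.Pad47bb Pool.Agent.Lib.Pad47bbP Pool.Agent.Lib.Pad47bbQ

/-- the elements `g` with `g R = R`, `R` the image of `p` -/
def stabRange {V W : Type*} [NormedAddCommGroup V] [NormedSpace ℝ V]
    [NormedAddCommGroup W] [NormedSpace ℝ W] (p : W →ₗ[ℝ] V) : Subgroup (V ≃ₗ[ℝ] V) where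
  carrier := {g | ∀ x, (∃ w, p w = g x) ↔ ∃ w, p w = x}
  mul_mem' := by
    intro a b ha hb x
    exact (ha (b x)).trans (hb x)
  one_mem' := fun x => Iff.rfl
  inv_mem' := by
    intro a ha x
    have h1 := ha (a⁻¹ x)
    have h2 : a (a⁻¹ x) = x := a.apply_symm_apply x
    rw [h2] at h1
    exact h1.symm

theorem mem_stabRange {V W : Type*} [NormedAddCommGroup V] [NormedSpace ℝ V]
    [NormedAddCommGroup W] [NormedSpace ℝ W] {p : W →ₗ[ℝ] V} {g : V ≃ₗ[ℝ] V} :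
    g ∈ stabRange p ↔ ∀ x, (∃ w, p w = g x) ↔ ∃ w, p w = x := Iff.rfl

/-- Face data for `(V, L, K, G)`: an injective linear map `p : W → V` such that the elements of `K`
in the image of `p` form a face of `K` (if `x + y` is in the image for `x, y ∈ K`, so is `x`) that
has an interior in the image; a subgroup `M` of `W` such that every element of `L` in the image of
`p` has a positive multiple in `p M`; a subgroup `D` of finite index of the stabilizer of the image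
of `p` in `G`; and a group `Γ'` preserving `M` and the preimage of `K` such that every element of
`D` restricts to an element of `Γ'`. -/
structure IsFaceOf {V W : Type*} [NormedAddCommGroup V] [NormedSpace ℝ V]
    [NormedAddCommGroup W] [NormedSpace ℝ W] (L : Submodule ℤ V) (K : PointedCone ℝ V)
    (G D : Subgroup (V ≃ₗ[ℝ] V)) (p : W →ₗ[ℝ] V) (M : Submodule ℤ W)
    (Γ' : Subgroup (W ≃ₗ[ℝ] W)) : Prop where
  injective : Function.Injective p
  face : ∀ x ∈ K, ∀ y ∈ K, (∃ w, p w = x + y) → ∃ w, p w = x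
  interior : (interior ((K.comap p : PointedCone ℝ W) : Set W)).Nonempty
  lattice : ∀ x ∈ L, (∃ w, p w = x) → ∃ n : ℕ, 0 < n ∧ ∃ m ∈ M, p m = (n : ℝ) • x
  index : (D.subgroupOf (G ⊓ stabRange p)).FiniteIndex
  preserves' : Preserves M (K.comap p) Γ'
  lift : ∀ d ∈ D, ∃ g ∈ Γ', ∀ w, p (g w) = d (p w)

variable {V : Type*} [NormedAddCommGroup V] [NormedSpace ℝ V]
  {W : Type*} [NormedAddCommGroup W] [NormedSpace ℝ W]

/-- a sum of elements of `K` in the image: each of them is in the image -/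
theorem face_sum {K : PointedCone ℝ V} {p : W →ₗ[ℝ] V}
    (hface : ∀ x ∈ K, ∀ y ∈ K, (∃ w, p w = x + y) → ∃ w, p w = x) {ι : Type*} (s : Finset ι)
    (v : ι → V) (hv : ∀ i ∈ s, v i ∈ K) (h : ∃ w, p w = ∑ i ∈ s, v i) :
    ∀ i ∈ s, ∃ w, p w = v i := by
  classical
  intro i hi
  rw [← Finset.add_sum_erase s v hi] at h
  exact hface _ (hv i hi) _ (K.sum_mem fun j hj => hv j (Finset.mem_of_mem_erase hj)) h

/-- an element that moves an interior point of the face into the face preserves the face -/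
theorem map_face [FiniteDimensional ℝ W] {K : PointedCone ℝ V} {p : W →ₗ[ℝ] V}
    (hface : ∀ x ∈ K, ∀ y ∈ K, (∃ w, p w = x + y) → ∃ w, p w = x) {g : V ≃ₗ[ℝ] V}
    (hg : ∀ x ∈ K, g x ∈ K) {w : W} (hw : w ∈ interior ((K.comap p : PointedCone ℝ W) : Set W))
    (h : ∃ v, p v = g (p w)) (u : W) : ∃ v, p v = g (p u) := by
  obtain ⟨r, hr, h1, h2⟩ : ∃ r : ℝ, 0 < r ∧ w + r • u ∈ K.comap p ∧ w - r • u ∈ K.comap p := by
    have ha : Filter.Tendsto (fun r : ℝ => w + r • u) (𝓝[>] 0) (𝓝 w) := by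
      have h2 : Filter.Tendsto (fun r : ℝ => w + r • u) (𝓝 0) (𝓝 (w + (0 : ℝ) • u)) := by
        apply Continuous.tendsto
        fun_prop
      rw [zero_smul, add_zero] at h2
      exact h2.mono_left nhdsWithin_le_nhds
    have hb : Filter.Tendsto (fun r : ℝ => w - r • u) (𝓝[>] 0) (𝓝 w) := by
      have h2 : Filter.Tendsto (fun r : ℝ => w - r • u) (𝓝 0) (𝓝 (w - (0 : ℝ) • u)) := by
        apply Continuous.tendsto
        fun_prop
      rw [zero_smul, sub_zero] at h2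
      exact h2.mono_left nhdsWithin_le_nhds
    have h3 := ((ha.eventually (isOpen_interior.mem_nhds hw)).and
      (hb.eventually (isOpen_interior.mem_nhds hw))).and self_mem_nhdsWithin
    obtain ⟨r, ⟨hr1, hr2⟩, hr3⟩ := h3.exists
    exact ⟨r, hr3, interior_subset (s := ((K.comap p : PointedCone ℝ W) : Set W)) hr1,
      interior_subset (s := ((K.comap p : PointedCone ℝ W) : Set W)) hr2⟩
  have h1' : g (p (w + r • u)) ∈ K := hg _ h1
  have h2' : g (p (w - r • u)) ∈ K := hg _ h2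
  obtain ⟨v, hv⟩ := h
  have h3 : ∃ v', p v' = g (p (w + r • u)) + g (p (w - r • u)) := by
    refine ⟨(2 : ℝ) • v, ?_⟩
    rw [map_smul, hv, ← map_add, ← map_add, ← map_smul, ← map_smul]
    congr 2
    rw [two_smul]
    abel
  obtain ⟨v', hv'⟩ := hface _ h1' _ h2' h3
  refine ⟨r⁻¹ • (v' - v), ?_⟩
  rw [map_smul, map_sub, hv', hv, map_add, map_add, add_sub_cancel_left, map_smul, map_smul,
    smul_smul, inv_mul_cancel₀ hr.ne', one_smul]

section step

variable [FiniteDimensional ℝ V] [FiniteDimensional ℝ W]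

/-- the part of a translate of a rational polyhedral cone in the face -/
theorem face_gen {L : Submodule ℤ V} {M : Submodule ℤ W} {K : PointedCone ℝ V} {p : W →ₗ[ℝ] V}
    (hp : Function.Injective p)
    (hface : ∀ x ∈ K, ∀ y ∈ K, (∃ w, p w = x + y) → ∃ w, p w = x)
    (hLM : ∀ x ∈ L, (∃ w, p w = x) → ∃ n : ℕ, 0 < n ∧ ∃ m ∈ M, p m = (n : ℝ) • x)
    (s : Finset V) (hsL : (s : Set V) ⊆ L) (hsK : (s : Set V) ⊆ K) (g : V ≃ₗ[ℝ] V)
    (hgL : ∀ x ∈ L, g x ∈ L) (hgK : ∀ x ∈ K, g x ∈ K) :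
    ∃ u : Finset W, (u : Set W) ⊆ M ∧ (∀ m ∈ u, p m ∈ K) ∧
      ∀ w, (∃ y ∈ PointedCone.hull ℝ (s : Set V), g y = p w) → w ∈ PointedCone.hull ℝ (u : Set W) := by
  classical
  have hex : ∀ a ∈ s, (∃ w, p w = g a) → ∃ n : ℕ, 0 < n ∧ ∃ m ∈ M, p m = (n : ℝ) • g a :=
    fun a ha h => hLM (g a) (hgL a (hsL ha)) h
  choose! n hn m hm hpm using hex
  set s' := s.filter fun a => ∃ w, p w = g a with hs'
  refine ⟨s'.image m, ?_, ?_, ?_⟩
  · intro x hx
    obtain ⟨a, ha, rfl⟩ := Finset.mem_image.1 (Finset.mem_coe.1 hx)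
    obtain ⟨ha1, ha2⟩ := Finset.mem_filter.1 ha
    exact hm a ha1 ha2
  · intro x hx
    obtain ⟨a, ha, rfl⟩ := Finset.mem_image.1 hx
    obtain ⟨ha1, ha2⟩ := Finset.mem_filter.1 ha
    rw [hpm a ha1 ha2]
    exact PointedCone.smul_mem K (Nat.cast_nonneg _) (hgK a (hsK ha1))
  · rintro w ⟨y, hy, hyw⟩
    obtain ⟨c, hc, hyc⟩ := mem_hull_finset.1 hy
    have h1 : p w = ∑ a ∈ s, c a • g a := by
      rw [← hyw, hyc]
      simp [map_sum, map_smul]
    have h2 : ∀ a ∈ s, ∃ v, p v = c a • g a :=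
      face_sum hface s (fun a => c a • g a)
        (fun a ha => PointedCone.smul_mem K (hc a ha) (hgK a (hsK ha))) ⟨w, h1⟩
    have h3 : p w = ∑ a ∈ s', c a • g a := by
      rw [h1, hs', Finset.sum_filter]
      refine Finset.sum_congr rfl fun a ha => ?_
      by_cases h : ∃ w, p w = g a
      · rw [if_pos h]
      · rw [if_neg h]
        by_cases hca : c a = 0
        · rw [hca, zero_smul]
        · obtain ⟨v, hv⟩ := h2 a ha
          exact absurd ⟨(c a)⁻¹ • v, by rw [map_smul, hv, smul_smul, inv_mul_cancel₀ hca, one_smul]⟩ h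
    have h4 : w = ∑ a ∈ s', (c a * (n a : ℝ)⁻¹) • m a := by
      apply hp
      rw [map_sum, h3]
      refine Finset.sum_congr rfl fun a ha => ?_
      obtain ⟨ha1, ha2⟩ := Finset.mem_filter.1 ha
      have hn' : (n a : ℝ) ≠ 0 := by exact_mod_cast (hn a ha1 ha2).ne'
      rw [map_smul, hpm a ha1 ha2, smul_smul]
      congr 1
      field_simp
    rw [h4]
    refine Submodule.sum_mem _ fun a ha => PointedCone.smul_mem _ ?_
      (Submodule.subset_span (Finset.mem_coe.2 (Finset.mem_image_of_mem m ha)))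
    have := hc a (Finset.mem_filter.1 ha).1
    positivity

/-- Faces; the stabilizer of the face is used up to finitely many cosets of elements that come
from `Γ'`. -/
theorem face_core {L : Submodule ℤ V} [DiscreteTopology L] [IsZLattice ℝ L]
    {M : Submodule ℤ W} [DiscreteTopology M] [IsZLattice ℝ M]
    {K : PointedCone ℝ V} {Γ : Subgroup (V ≃ₗ[ℝ] V)} (S : Setting L K Γ)
    {p : W →ₗ[ℝ] V} {Γ' : Subgroup (W ≃ₗ[ℝ] W)} (hp : Function.Injective p)
    (hface : ∀ x ∈ K, ∀ y ∈ K, (∃ w, p w = x + y) → ∃ w, p w = x)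
    (hint : (interior ((K.comap p : PointedCone ℝ W) : Set W)).Nonempty)
    (hLM : ∀ x ∈ L, (∃ w, p w = x) → ∃ n : ℕ, 0 < n ∧ ∃ m ∈ M, p m = (n : ℝ) • x)
    (hpres : Preserves M (K.comap p) Γ')
    (hQ : ∃ Q : Set (V ≃ₗ[ℝ] V), Q.Finite ∧ Q ⊆ Γ ∧ ∀ k ∈ Γ ⊓ stabRange p, ∃ q ∈ Q,
      ∃ g ∈ Γ', ∀ w, p (g w) = (k * q⁻¹) (p w))
    (hΓ : HasRPFD L Γ K) : HasRPFD M Γ' (K.comap p) := by
  classical
  have hpc : Continuous p := LinearMap.continuous_of_finiteDimensional p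
  obtain ⟨P, ⟨s, hsL, rfl⟩, hcov, -⟩ := hΓ
  have hsK : (s : Set V) ⊆ K := by
    intro x hx
    show x ∈ (K : Set V)
    rw [hcov]
    exact mem_biUnion (one_mem Γ) ⟨x, Submodule.subset_span hx, rfl⟩
  have hcov' : ∀ x ∈ K, ∃ g ∈ Γ, ∃ y ∈ PointedCone.hull ℝ (s : Set V), g y = x := by
    intro x hx
    have h1 : x ∈ (K : Set V) := hx
    rw [hcov] at h1
    simp only [mem_iUnion] at h1
    obtain ⟨g, hg, y, hy, hgy⟩ := h1
    exact ⟨g, hg, y, hy, hgy⟩
  have hΓA : Γ ≤ autGroup L K := le_autGroup S.map_lattice S.map_cone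
  have S' : Setting M (K.comap p) Γ' := by
    refine ⟨?_, hint, hpres.1, hpres.2⟩
    intro x hx hx'
    have h1 : ∀ y ∈ closure ((K.comap p : PointedCone ℝ W) : Set W), p y ∈ closure (K : Set V) :=
      fun y hy => map_mem_closure hpc hy fun z hz => hz
    apply hp
    rw [map_zero]
    refine S.salient _ (h1 x hx) ?_
    rw [← map_neg]
    exact h1 _ hx'
  -- relevant elements
  let rel : Set (V ≃ₗ[ℝ] V) := {g | g ∈ Γ ∧ ∃ y ∈ PointedCone.hull ℝ (s : Set V),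
    ∃ w ∈ interior ((K.comap p : PointedCone ℝ W) : Set W), g y = p w}
  let cj : (V ≃ₗ[ℝ] V) → Finset V := fun g => s.filter fun a => ∃ w, p w = g a
  have hcj : (cj '' rel).Finite := by
    refine (s.powerset.finite_toSet).subset ?_
    rintro _ ⟨g, -, rfl⟩
    exact Finset.mem_coe.2 (Finset.mem_powerset.2 (Finset.filter_subset _ _))
  have hmove : ∀ g ∈ rel, ∀ h ∈ Γ, cj g = cj h → ∀ u, ∃ v, p v = (h * g⁻¹) (p u) := by
    rintro g ⟨hg, y, hy, w, hw, hyw⟩ h hh hgh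
    refine map_face hface (S.map_cone _ (mul_mem hh (inv_mem hg))) hw ?_
    have h0 : (h * g⁻¹) (p w) = h y := by
      rw [← hyw]
      show h (g⁻¹ (g y)) = h y
      congr 1
      exact g.symm_apply_apply y
    rw [h0]
    obtain ⟨c, hc, hyc⟩ := mem_hull_finset.1 hy
    have h1 : p w = ∑ a ∈ s, c a • g a := by
      rw [← hyw, hyc]
      simp [map_sum, map_smul]
    have h2 : ∀ a ∈ s, ∃ v, p v = c a • g a :=
      face_sum hface s (fun a => c a • g a)
        (fun a ha => PointedCone.smul_mem K (hc a ha) (S.map_cone g hg a (hsK ha))) ⟨w, h1⟩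
    have h3 : ∀ a ∈ s, ∃ v, p v = c a • h a := by
      intro a ha
      by_cases hca : c a = 0
      · exact ⟨0, by rw [hca, zero_smul, map_zero]⟩
      · obtain ⟨v, hv⟩ := h2 a ha
        have h4 : a ∈ cj g := Finset.mem_filter.2 ⟨ha, (c a)⁻¹ • v, by
          rw [map_smul, hv, smul_smul, inv_mul_cancel₀ hca, one_smul]⟩
        rw [hgh] at h4
        obtain ⟨-, v', hv'⟩ := Finset.mem_filter.1 h4
        exact ⟨c a • v', by rw [map_smul, hv']⟩
    choose! v hv using h3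
    refine ⟨∑ a ∈ s, v a, ?_⟩
    rw [map_sum, hyc]
    simp only [map_sum, map_smul]
    exact Finset.sum_congr rfl fun a ha => hv a ha
  obtain ⟨Q, hQfin, hQC, hQ⟩ := hQ
  have hsec : ∀ c ∈ cj '' rel, ∃ g ∈ rel, cj g = c := fun c hc => hc
  choose! sec hsec1 hsec2 using hsec
  let R : Set (V ≃ₗ[ℝ] V) := (fun q : (V ≃ₗ[ℝ] V) × Finset V => q.1 * sec q.2) ''
    (Q ×ˢ (cj '' rel))
  have hRfin : R.Finite := (hQfin.prod hcj).image _
  have hRΓ : ∀ r ∈ R, r ∈ Γ := by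
    rintro _ ⟨⟨q, c⟩, ⟨hq, hc⟩, rfl⟩
    exact mul_mem (hQC hq) (hsec1 c hc).1
  have hR : ∀ g ∈ rel, ∃ r ∈ R, ∃ g' ∈ Γ', ∀ w, p (g' w) = (g * r⁻¹) (p w) := by
    intro g hg
    have hc : cj g ∈ cj '' rel := ⟨g, hg, rfl⟩
    have hg₀ := hsec1 (cj g) hc
    have hcg := hsec2 (cj g) hc
    have hk : g * (sec (cj g))⁻¹ ∈ Γ ⊓ stabRange p := by
      have hg1 : g ∈ Γ := hg.1
      have hg2 : sec (cj g) ∈ Γ := hg₀.1
      refine Subgroup.mem_inf.2 ⟨mul_mem hg1 (inv_mem hg2), mem_stabRange.2 fun x => ⟨?_, ?_⟩⟩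
      · rintro ⟨u, hu⟩
        obtain ⟨v, hv⟩ := hmove g hg (sec (cj g)) hg2 hcg.symm u
        refine ⟨v, hv.trans ?_⟩
        rw [hu]
        show (sec (cj g)) (g⁻¹ (g ((sec (cj g))⁻¹ x))) = x
        have e1 : g⁻¹ (g ((sec (cj g))⁻¹ x)) = (sec (cj g))⁻¹ x := g.symm_apply_apply _
        rw [e1]
        exact (sec (cj g)).apply_symm_apply x
      · rintro ⟨u, rfl⟩
        exact hmove (sec (cj g)) hg₀ g hg1 hcg u
    obtain ⟨q, hq, g', hg', hgq⟩ := hQ _ hk
    refine ⟨q * sec (cj g), ⟨(q, cj g), ⟨hq, hc⟩, rfl⟩, g', hg', fun w => ?_⟩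
    rw [hgq, mul_inv_rev, mul_assoc]
  -- the cone
  have hu : ∀ r ∈ autGroup L K, ∃ u : Finset W, (u : Set W) ⊆ M ∧ (∀ m ∈ u, p m ∈ K) ∧
      ∀ w, (∃ y ∈ PointedCone.hull ℝ (s : Set V), r y = p w) →
        w ∈ PointedCone.hull ℝ (u : Set W) := fun r hr =>
    face_gen hp hface hLM s hsL hsK r hr.1 hr.2.2.1
  choose! u huM huK hu using hu
  let t : Finset W := hRfin.toFinset.biUnion u
  have htM : (t : Set W) ⊆ M := by
    intro x hx
    obtain ⟨r, hr, hxr⟩ := Finset.mem_biUnion.1 (Finset.mem_coe.1 hx)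
    exact huM r (hΓA (hRΓ r (hRfin.mem_toFinset.1 hr))) hxr
  have htK : (t : Set W) ⊆ (K.comap p : PointedCone ℝ W) := by
    intro x hx
    obtain ⟨r, hr, hxr⟩ := Finset.mem_biUnion.1 (Finset.mem_coe.1 hx)
    exact huK r (hΓA (hRΓ r (hRfin.mem_toFinset.1 hr))) x hxr
  have hgen : ∀ x ∈ K.comap p, ∃ u : Finset W, (u : Set W) ⊆ M ∧
      (u : Set W) ⊆ (K.comap p : PointedCone ℝ W) ∧ x ∈ PointedCone.hull ℝ (u : Set W) := by
    intro x hx
    obtain ⟨g, hg, y, hy, hgy⟩ := hcov' (p x) hx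
    exact ⟨u g, huM g (hΓA hg), fun m hm => huK g (hΓA hg) m hm, hu g (hΓA hg) x ⟨y, hy, hgy⟩⟩
  have hcovW : ∀ x ∈ interior ((K.comap p : PointedCone ℝ W) : Set W),
      ∃ g ∈ Γ', ∃ y ∈ PointedCone.hull ℝ (t : Set W), g y = x := by
    intro x hx
    have hpx : p x ∈ K := interior_subset (s := ((K.comap p : PointedCone ℝ W) : Set W)) hx
    obtain ⟨g, hg, y, hy, hgy⟩ := hcov' (p x) hpx
    have hgrel : g ∈ rel := ⟨hg, y, hy, x, hx, hgy⟩
    obtain ⟨r, hr, g', hg', hlg⟩ := hR g hgrel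
    have h2 : g' (g'⁻¹ x) = x := g'.apply_symm_apply x
    have h3 : r y = p (g'⁻¹ x) := by
      have h4 := hlg (g'⁻¹ x)
      rw [h2, ← hgy] at h4
      have h5 : y = r⁻¹ (p (g'⁻¹ x)) := g.injective h4
      rw [h5]
      exact r.apply_symm_apply _
    refine ⟨g', hg', g'⁻¹ x, ?_, h2⟩
    have h4 : u r ⊆ t := Finset.subset_biUnion_of_mem u (hRfin.mem_toFinset.2 hr)
    exact hull_mono_finset h4 (hu r (hΓA (hRΓ r hr)) _ ⟨y, hy, h3⟩)
  have hfull := closing S' t htM htK hgen hcovW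
  refine exists_fundDomain S' ⟨t, htM, rfl⟩ (Subset.antisymm ?_ ?_)
  · intro x hx
    obtain ⟨g, hg, y, hy, hgy⟩ := hfull x hx
    exact mem_biUnion hg ⟨y, hy, hgy⟩
  · refine iUnion₂_subset fun g hg => ?_
    rintro _ ⟨y, hy, rfl⟩
    have h1 : PointedCone.hull ℝ (t : Set W) ≤ K.comap p := Submodule.span_le.2 htK
    exact S'.map_cone g hg y (h1 hy)

/-- Faces. -/
theorem face_step {L : Submodule ℤ V} [DiscreteTopology L] [IsZLattice ℝ L]
    {M : Submodule ℤ W} [DiscreteTopology M] [IsZLattice ℝ M]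
    {K : PointedCone ℝ V} {Γ : Subgroup (V ≃ₗ[ℝ] V)} (S : Setting L K Γ)
    {D : Subgroup (V ≃ₗ[ℝ] V)} {p : W →ₗ[ℝ] V} {Γ' : Subgroup (W ≃ₗ[ℝ] W)}
    (hF : IsFaceOf L K Γ D p M Γ') (hΓ : HasRPFD L Γ K) : HasRPFD M Γ' (K.comap p) := by
  refine face_core S hF.injective hF.face hF.interior hF.lattice hF.preserves' ?_ hΓ
  obtain ⟨Q, hQfin, hQC, hQ⟩ := exists_finite_reps _ D hF.index
  refine ⟨Q, hQfin, fun q hq => (hQC hq).1, fun k hk => ?_⟩
  obtain ⟨d, hd, q, hq, rfl⟩ := hQ k hk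
  obtain ⟨g, hg, hgd⟩ := hF.lift d hd
  refine ⟨q, hq, g, hg, fun w => ?_⟩
  rw [hgd, mul_inv_cancel_right]

end step

end Pool.Agent.Lib.Pad47bbF
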