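import Pool.Agent.Lib.Pad47bbF.Proj
import Pool.Agent.Lib.Pad47bbD.Descent

/-!
The composition: the projection of divisor data along a contractible set of primes, followed by a
subquotient.
-/

open Set Topology

namespace Pool.Agent.Lib.Pad47bbF

open Pool.Agent.Lib.Pad47bb Pool.Agent.Lib.Pad47bbP Pool.Agent.Lib.Pad47bbD

section push

variable {V U : Type*} [NormedAddCommGroup V] [NormedSpace ℝ V]
  [NormedAddCommGroup U] [NormedSpace ℝ U]

/-- A linear automorphism preserving a finite set induces a linear automorphism of the quotient by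
its span. -/
theorem exists_push {S : Finset V} {π : V →ₗ[ℝ] U} (hsurj : Function.Surjective π)
    (hker : ∀ x, π x = 0 ↔ x ∈ Submodule.span ℝ (S : Set V)) {g : V ≃ₗ[ℝ] V}
    (hg : ∀ D ∈ S, g D ∈ S) (hg' : ∀ D ∈ S, g⁻¹ D ∈ S) :
    ∃ h : U ≃ₗ[ℝ] U, ∀ x, h (π x) = π (g x) := by
  have hspan : ∀ k : V ≃ₗ[ℝ] V, (∀ D ∈ S, k D ∈ S) → ∀ x ∈ Submodule.span ℝ (S : Set V),
      k x ∈ Submodule.span ℝ (S : Set V) := by
    intro k hk x hx
    induction hx using Submodule.span_induction with
    | mem x hx => exact Submodule.subset_span (hk x hx)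
    | zero => rw [map_zero]; exact Submodule.zero_mem _
    | add x y _ _ hx hy => rw [map_add]; exact Submodule.add_mem _ hx hy
    | smul c x _ hx => rw [map_smul]; exact Submodule.smul_mem _ c hx
  have hinv : ∀ k : V ≃ₗ[ℝ] V, (∀ D ∈ S, k D ∈ S) → ∀ x y, π x = π y → π (k x) = π (k y) := by
    intro k hk x y hxy
    have h1 : π (x - y) = 0 := by rw [map_sub, hxy, sub_self]
    have h3 := (hker _).2 (hspan k hk _ ((hker _).1 h1))
    rw [map_sub, map_sub, sub_eq_zero] at h3
    exact h3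
  choose σ hσ using hsurj
  let h : U ≃ₗ[ℝ] U :=
    { toFun := fun u => π (g (σ u))
      map_add' := fun u v => by
        rw [← map_add, ← map_add]
        exact hinv g hg _ _ (by rw [hσ, map_add, hσ, hσ])
      map_smul' := fun c u => by
        rw [RingHom.id_apply, ← map_smul, ← map_smul]
        exact hinv g hg _ _ (by rw [hσ, map_smul, hσ])
      invFun := fun u => π (g⁻¹ (σ u))
      left_inv := fun u => by
        have h1 := hinv g⁻¹ hg' (σ (π (g (σ u)))) (g (σ u)) (hσ _)
        have h2 : g⁻¹ (g (σ u)) = σ u := g.symm_apply_apply _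
        rw [h2, hσ] at h1
        exact h1
      right_inv := fun u => by
        have h1 := hinv g hg (σ (π (g⁻¹ (σ u)))) (g⁻¹ (σ u)) (hσ _)
        have h2 : g (g⁻¹ (σ u)) = σ u := g.apply_symm_apply _
        rw [h2, hσ] at h1
        exact h1 }
  exact ⟨h, fun x => hinv g hg _ _ (hσ _)⟩

/-- Projection data are push-forward data. -/
theorem IsProjection.isPush {L : Submodule ℤ V} {K : PointedCone ℝ V}
    {Γ : Subgroup (V ≃ₗ[ℝ] V)} {S : Finset V} {π : V →ₗ[ℝ] U} {L' : Submodule ℤ U}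
    {Γ' : Subgroup (U ≃ₗ[ℝ] U)} (Q : IsProjection L K Γ (S : Set V) π L' Γ') :
    IsPush L K Γ S π L' Γ' where
  surj := Q.surjective
  ker := Q.ker
  lattice := fun x hx => (Q.lattice _).2 ⟨x, hx, rfl⟩
  map_lattice := Q.preserves'.1
  map_cone := Q.preserves'.2
  induced := by
    classical
    intro g hg hgS
    have himg : S.image (g : V → V) = S := by
      refine Finset.eq_of_subset_of_card_le ?_ ?_
      · intro x hx
        obtain ⟨D, hD, rfl⟩ := Finset.mem_image.1 hx
        exact hgS D hD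
      · rw [Finset.card_image_of_injective _ g.injective]
    have hgS' : ∀ D ∈ S, g⁻¹ D ∈ S := by
      intro D hD
      rw [← himg] at hD
      obtain ⟨D', hD', rfl⟩ := Finset.mem_image.1 hD
      have h2 : g⁻¹ (g D') = D' := g.symm_apply_apply _
      rw [h2]
      exact hD'
    obtain ⟨h, hh⟩ := exists_push Q.surjective Q.ker hgS hgS'
    refine ⟨h, Q.induced g hg ?_ h hh, hh⟩
    have h1 := congrArg (fun t : Finset V => (t : Set V)) himg
    simpa using h1

end push

variable {V U W : Type*} [NormedAddCommGroup V] [NormedSpace ℝ V] [FiniteDimensional ℝ V]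
  [NormedAddCommGroup U] [NormedSpace ℝ U] [FiniteDimensional ℝ U]
  [NormedAddCommGroup W] [NormedSpace ℝ W] [FiniteDimensional ℝ W]

/-- Projections along contractible sets, followed by subquotients. -/
theorem descent_sub {L : Submodule ℤ V} [DiscreteTopology L] [IsZLattice ℝ L]
    {P : Set V} {M : PointedCone ℝ V} {Γ : Subgroup (V ≃ₗ[ℝ] V)} (T : DivData L P M Γ)
    {S : Finset V} (hS : Contractible P M (S : Set V))
    {π : V →ₗ[ℝ] U} {L₁ : Submodule ℤ U} {Γ₁ : Subgroup (U ≃ₗ[ℝ] U)}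
    (hπ : IsProjection L (M ⊓ eff P) Γ (S : Set V) π L₁ Γ₁)
    {H D : Subgroup (U ≃ₗ[ℝ] U)} {p : W →ₗ[ℝ] U} {L₂ : Submodule ℤ W} [DiscreteTopology L₂]
    [IsZLattice ℝ L₂] {Γ₂ : Subgroup (W ≃ₗ[ℝ] W)}
    (hp : IsSubquotient L₁ ((M ⊓ eff P).map π) Γ₁ H D p L₂ Γ₂)
    (h : HasRPFD L Γ (M ⊓ eff P)) :
    HasRPFD L₂ Γ₂ (((M ⊓ eff P).map π).comap p) := by
  have hd : DiscreteTopology L₁ := discrete_image
    (fun x hx => T.prime_lattice (by obtain ⟨q, -, -, hq⟩ := hS; exact (hq hx).1)) hπ.ker hπ.lattice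
  have hz : IsZLattice ℝ L₁ := ⟨span_image hπ.surjective hπ.lattice⟩
  exact sub_step (T.setting_map hS hπ.isPush) hp (T.descent h hS hπ.isPush)

end Pool.Agent.Lib.Pad47bbF
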