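import Pool.Agent.Lib.Pad47bbF.Sub
import Pool.Agent.Lib.Pad47bbB.Lattice

/-!
Projections of cone data: the data of a space modulo the span of finitely many lattice vectors.
-/

open Set Topology

namespace Pool.Agent.Lib.Pad47bbF

open Pool.Agent.Lib.Pad47bb Pool.Agent.Lib.Pad47bbP

/-- Projection data for `(V, L, K, G)`: a surjective linear map `π : V → U` whose kernel is the span
of `S`; the lattice `L' = π L`; and a group `Γ'` of linear automorphisms of `U` which preserves `L'`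
and `π K` and contains every map induced by an element `g` of `G` with `g S = S`. -/
structure IsProjection {V U : Type*} [NormedAddCommGroup V] [NormedSpace ℝ V]
    [NormedAddCommGroup U] [NormedSpace ℝ U] (L : Submodule ℤ V) (K : PointedCone ℝ V)
    (G : Subgroup (V ≃ₗ[ℝ] V)) (S : Set V) (π : V →ₗ[ℝ] U) (L' : Submodule ℤ U)
    (Γ' : Subgroup (U ≃ₗ[ℝ] U)) : Prop where
  surjective : Function.Surjective π
  ker : ∀ x, π x = 0 ↔ x ∈ Submodule.span ℝ S
  lattice : ∀ u, u ∈ L' ↔ ∃ x ∈ L, π x = u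
  preserves' : Preserves L' (K.map π) Γ'
  induced : ∀ g ∈ G, g '' S = S → ∀ h : U ≃ₗ[ℝ] U, (∀ x, h (π x) = π (g x)) → h ∈ Γ'

section lattice

variable {V : Type*} [NormedAddCommGroup V] [NormedSpace ℝ V] [FiniteDimensional ℝ V]
  {U : Type*} [NormedAddCommGroup U] [NormedSpace ℝ U] [FiniteDimensional ℝ U]
  {L : Submodule ℤ V} [DiscreteTopology L] [IsZLattice ℝ L]

/-- The image of the lattice under a linear map whose kernel is spanned by lattice vectors is
discrete. -/
theorem discrete_image {J : Finset V} (hJ : ∀ x ∈ J, x ∈ L) {π : V →ₗ[ℝ] U}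
    (hker : ∀ x, π x = 0 ↔ x ∈ Submodule.span ℝ (J : Set V)) {L' : Submodule ℤ U}
    (hL' : ∀ u, u ∈ L' ↔ ∃ x ∈ L, π x = u) : DiscreteTopology L' := by
  classical
  have hle : Module.finrank ℝ (Submodule.span ℝ (J : Set V)) ≤ Module.finrank ℝ V :=
    Submodule.finrank_le _
  obtain ⟨ρ, hρ, hρker, hρint⟩ := Pad47bbB.exists_quot L hJ
    (k := Module.finrank ℝ V - Module.finrank ℝ (Submodule.span ℝ (J : Set V))) (by omega)
  -- `ρ` factors through `π`
  have hfac : ∀ x y, π x = π y → ρ x = ρ y := by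
    intro x y hxy
    have h1 : π (x - y) = 0 := by rw [map_sub, hxy, sub_self]
    have h2 := (hρker _).2 ((hker _).1 h1)
    rwa [map_sub, sub_eq_zero] at h2
  obtain ⟨e, he⟩ : ∃ e : U →ₗ[ℝ] (Fin (Module.finrank ℝ V -
      Module.finrank ℝ (Submodule.span ℝ (J : Set V))) → ℝ), ∀ x, e (π x) = ρ x := by
    have h1 : LinearMap.ker π ≤ LinearMap.ker ρ := by
      intro x hx
      rw [LinearMap.mem_ker] at hx ⊢
      exact (hρker x).2 ((hker x).1 hx)
    obtain ⟨e₀, he₀⟩ := LinearMap.exists_extend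
      ((Submodule.liftQ (LinearMap.ker π) ρ h1) ∘ₗ
        (π.quotKerEquivRange.symm : LinearMap.range π →ₗ[ℝ] (V ⧸ LinearMap.ker π)))
    refine ⟨e₀, fun x => ?_⟩
    have h2 := LinearMap.congr_fun he₀ ⟨π x, LinearMap.mem_range_self π x⟩
    have h3 : π.quotKerEquivRange.symm ⟨π x, LinearMap.mem_range_self π x⟩ =
        Submodule.Quotient.mk x := by
      rw [LinearEquiv.symm_apply_eq]
      rfl
    have h4 : e₀ (π x) = (Submodule.liftQ _ ρ h1)
        (π.quotKerEquivRange.symm ⟨π x, LinearMap.mem_range_self π x⟩) := h2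
    rw [h4, h3]
    exact Submodule.liftQ_apply _ _ _
  have hec : Continuous e := LinearMap.continuous_of_finiteDimensional e
  -- a neighbourhood of zero without other lattice points
  refine discrete_of_gap L' ?_
  obtain ⟨δ, hδ, hball⟩ := Metric.continuous_iff.1 hec 0 1 one_pos
  refine ⟨δ, hδ, fun s hs hsδ => ?_⟩
  obtain ⟨x, hx, rfl⟩ := (hL' s).1 hs
  have h1 : ‖ρ x‖ < 1 := by
    have h2 := hball (π x) (by simpa [dist_eq_norm] using hsδ)
    rwa [map_zero, dist_eq_norm, sub_zero, he] at h2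
  have h3 : ρ x = 0 := by
    funext i
    obtain ⟨n, hn⟩ := hρint x hx i
    have h2 : ‖ρ x i‖ < 1 := (norm_le_pi_norm (ρ x) i).trans_lt h1
    rw [hn, Real.norm_eq_abs] at h2
    have h3 : |n| < 1 := by exact_mod_cast h2
    rw [Int.abs_lt_one_iff] at h3
    rw [hn, h3]
    simp
  exact (hker x).2 ((hρker x).1 h3)

omit [FiniteDimensional ℝ V] [FiniteDimensional ℝ U] in
/-- The image of the lattice spans. -/
theorem span_image {π : V →ₗ[ℝ] U} (hπ : Function.Surjective π) {L' : Submodule ℤ U}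
    (hL' : ∀ u, u ∈ L' ↔ ∃ x ∈ L, π x = u) : Submodule.span ℝ (L' : Set U) = ⊤ := by
  have h1 : (L' : Set U) = π '' (L : Set V) := by
    ext u
    exact hL' u
  rw [h1, ← Submodule.map_span, IsZLattice.span_top (K := ℝ) (L := L), Submodule.map_top,
    LinearMap.range_eq_top.2 hπ]

end lattice

section salient

variable {V : Type*} [NormedAddCommGroup V] [NormedSpace ℝ V] [FiniteDimensional ℝ V]
  {U : Type*} [NormedAddCommGroup U] [NormedSpace ℝ U]

/-- The image of a closed cone that meets the kernel only in zero is closed. -/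
theorem isClosed_image {M : PointedCone ℝ V} (hM : IsClosed (M : Set V)) {π : V →ₗ[ℝ] U}
    (hker : ∀ x ∈ M, π x = 0 → x = 0) : IsClosed (π '' (M : Set V)) := by
  have hπc : Continuous π := LinearMap.continuous_of_finiteDimensional π
  -- a lower bound
  obtain ⟨c, hc, hb⟩ : ∃ c : ℝ, 0 < c ∧ ∀ x ∈ M, c * ‖x‖ ≤ ‖π x‖ := by
    have hK : IsCompact ((M : Set V) ∩ Metric.sphere 0 1) :=
      (isCompact_sphere (0 : V) 1).inter_left hM
    rcases ((M : Set V) ∩ Metric.sphere 0 1).eq_empty_or_nonempty with hemp | hne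
    · refine ⟨1, one_pos, fun x hx => ?_⟩
      by_cases hx0 : x = 0
      · simp [hx0]
      · exfalso
        have h1 : ‖x‖⁻¹ • x ∈ (M : Set V) ∩ Metric.sphere 0 1 := by
          refine ⟨PointedCone.smul_mem M (inv_nonneg.2 (norm_nonneg x)) hx, ?_⟩
          rw [mem_sphere_zero_iff_norm, norm_smul, norm_inv, norm_norm,
            inv_mul_cancel₀ (norm_ne_zero_iff.2 hx0)]
        rw [hemp] at h1
        exact h1
    · obtain ⟨y, ⟨hyM, hy1⟩, hmin⟩ := hK.exists_isMinOn hne (hπc.norm.continuousOn)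
      have hy0 : y ≠ 0 := by
        rintro rfl
        rw [mem_sphere_zero_iff_norm, norm_zero] at hy1
        exact zero_ne_one hy1
      have hπy : 0 < ‖π y‖ := norm_pos_iff.2 fun h => hy0 (hker y hyM h)
      refine ⟨‖π y‖, hπy, fun x hx => ?_⟩
      by_cases hx0 : x = 0
      · simp [hx0]
      · have hxn : 0 < ‖x‖ := norm_pos_iff.2 hx0
        have h1 : ‖x‖⁻¹ • x ∈ (M : Set V) ∩ Metric.sphere 0 1 := by
          refine ⟨PointedCone.smul_mem M (inv_nonneg.2 (norm_nonneg x)) hx, ?_⟩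
          rw [mem_sphere_zero_iff_norm, norm_smul, norm_inv, norm_norm,
            inv_mul_cancel₀ (norm_ne_zero_iff.2 hx0)]
        have h2 := hmin h1
        have h3 : ‖π y‖ ≤ ‖π (‖x‖⁻¹ • x)‖ := h2
        rw [map_smul, norm_smul, norm_inv, norm_norm] at h3
        calc ‖π y‖ * ‖x‖ ≤ ‖x‖⁻¹ * ‖π x‖ * ‖x‖ := by gcongr
          _ = ‖π x‖ := by field_simp
  refine isClosed_of_closure_subset fun u hu => ?_
  set R : ℝ := (‖u‖ + 1) / c with hR
  have hK : IsCompact ((M : Set V) ∩ Metric.closedBall 0 R) :=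
    (isCompact_closedBall (0 : V) R).inter_left hM
  have hcl : IsClosed (π '' ((M : Set V) ∩ Metric.closedBall 0 R)) := (hK.image hπc).isClosed
  have h1 : u ∈ closure (π '' ((M : Set V) ∩ Metric.closedBall 0 R)) := by
    rw [Metric.mem_closure_iff] at hu ⊢
    intro ε hε
    obtain ⟨_, ⟨x, hx, rfl⟩, hxu⟩ := hu (min ε 1) (lt_min hε one_pos)
    refine ⟨π x, ⟨x, ⟨hx, ?_⟩, rfl⟩, hxu.trans_le (min_le_left _ _)⟩
    rw [mem_closedBall_zero_iff, hR, le_div_iff₀ hc]
    have h2 : ‖π x‖ ≤ ‖u‖ + 1 := by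
      have h3 : ‖π x - u‖ < 1 := by
        rw [← dist_eq_norm, dist_comm]
        exact hxu.trans_le (min_le_right _ _)
      calc ‖π x‖ = ‖u + (π x - u)‖ := by rw [add_sub_cancel]
        _ ≤ ‖u‖ + ‖π x - u‖ := norm_add_le _ _
        _ ≤ ‖u‖ + 1 := by linarith
    linarith [hb x hx, mul_comm c ‖x‖]
  rw [hcl.closure_eq] at h1
  exact image_mono inter_subset_left h1

/-- The image of a closed salient cone that meets the kernel only in zero is salient. -/
theorem salient_image {M : PointedCone ℝ V} (hM : IsClosed (M : Set V))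
    (hsal : ∀ x ∈ M, -x ∈ M → x = 0) {π : V →ₗ[ℝ] U} (hker : ∀ x ∈ M, π x = 0 → x = 0) :
    ∀ u ∈ closure (π '' (M : Set V)), -u ∈ closure (π '' (M : Set V)) → u = 0 := by
  intro u hu hu'
  rw [(isClosed_image hM hker).closure_eq] at hu hu'
  obtain ⟨x, hx, rfl⟩ := hu
  obtain ⟨y, hy, hxy⟩ := hu'
  have h1 : x + y = 0 := hker _ (M.add_mem hx hy) (by rw [map_add, hxy, add_neg_cancel])
  have h2 : y = -x := eq_neg_of_add_eq_zero_right h1
  have h3 : -x ∈ M := by
    rw [← h2]
    exact hy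
  rw [hsal x hx h3, map_zero]

end salient

end Pool.Agent.Lib.Pad47bbF
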