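import Pool.Agent.Lib.Pad47bbD.PushData
import Pool.Agent.Lib.Pad47bbF.Face

/-!
Rational contractions: a birational contraction followed by a fibration.
-/

open Set Topology

namespace Pool.Agent.Lib.Pad47bbF

open Pool.Agent.Lib.Pad47bb Pool.Agent.Lib.Pad47bbP Pool.Agent.Lib.Pad47bbQ
  Pool.Agent.Lib.Pad47bbD

variable {V : Type*} [NormedAddCommGroup V] [NormedSpace ℝ V]
  {U : Type*} [NormedAddCommGroup U] [NormedSpace ℝ U]
  {W : Type*} [NormedAddCommGroup W] [NormedSpace ℝ W] {ι : Type*}

/-- A birational contraction of the family `f`, on the level of classes: `I` is a finite contractible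
set of indices, `π : V → U` is surjective with kernel the span of the `f i`, `i ∈ I`, and maps `L`
into `L'`; the group `G'` preserves `L'`, permutes the family of the `π (f i)`, `i ∉ I`, and contains
a map induced by `g` for every `g ∈ G` which preserves the set of the `f i`, `i ∈ I`. -/
structure IsBirational (L : Submodule ℤ V) (f : ι → V) (G : Subgroup (V ≃ₗ[ℝ] V)) (I : Finset ι)
    (π : V →ₗ[ℝ] U) (L' : Submodule ℤ U) (G' : Subgroup (U ≃ₗ[ℝ] U)) : Prop where
  contractible : ContractibleF f I
  surjective : Function.Surjective π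
  ker : ∀ x, π x = 0 ↔ x ∈ Submodule.span ℝ (f '' (I : Set ι))
  lattice : ∀ x ∈ L, π x ∈ L'
  map_lattice : ∀ h ∈ G', ∀ u ∈ L', h u ∈ L'
  perm : ∀ h ∈ G', ∃ σ : Equiv.Perm {i // i ∉ I}, ∀ i, h (push f I π i) = push f I π (σ i)
  induced : ∀ g ∈ G, g '' (f '' (I : Set ι)) = f '' (I : Set ι) →
    ∃ h ∈ G', ∀ x, h (π x) = π (g x)

/-- A fibration, on the level of classes: `p : W → U` is injective, its image meets the cone `K` in a
face with interior points, every vector of `L` in the image of `p` has a positive multiple in `p L'`;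
the group `G'` preserves `L'` and the preimage of `K` and contains the restriction to `W` of every
`g ∈ G` which preserves the image of `p`. -/
structure IsFibration (L : Submodule ℤ U) (K : PointedCone ℝ U) (G : Subgroup (U ≃ₗ[ℝ] U))
    (p : W →ₗ[ℝ] U) (L' : Submodule ℤ W) (G' : Subgroup (W ≃ₗ[ℝ] W)) : Prop where
  injective : Function.Injective p
  face : ∀ x ∈ K, ∀ y ∈ K, (∃ w, p w = x + y) → ∃ w, p w = x
  interior : (interior ((K.comap p : PointedCone ℝ W) : Set W)).Nonempty
  lattice : ∀ x ∈ L, (∃ w, p w = x) → ∃ n : ℕ, 0 < n ∧ ∃ m ∈ L', p m = (n : ℝ) • x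
  map_lattice : ∀ h ∈ G', ∀ w ∈ L', h w ∈ L'
  map_cone : ∀ h ∈ G', ∀ w, p w ∈ K → p (h w) ∈ K
  induced : ∀ g ∈ G, (∀ x, (∃ w, p w = g x) ↔ ∃ w, p w = x) → ∃ h ∈ G', ∀ w, p (h w) = g (p w)

variable [FiniteDimensional ℝ V] [FiniteDimensional ℝ U] [FiniteDimensional ℝ W]
  {L : Submodule ℤ V} {f : ι → V} {G : Subgroup (V ≃ₗ[ℝ] V)} {I : Finset ι} {π : V →ₗ[ℝ] U}
  {L' : Submodule ℤ U} {G' : Subgroup (U ≃ₗ[ℝ] U)} {p : W →ₗ[ℝ] U} {L'' : Submodule ℤ W}
  {G'' : Subgroup (W ≃ₗ[ℝ] W)}

omit [FiniteDimensional ℝ U] [FiniteDimensional ℝ W] in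
theorem IsFibration.isFaceOf {K : PointedCone ℝ U} (F : IsFibration L' K G' p L'' G'') :
    IsFaceOf L' K G' (G' ⊓ stabRange p) p L'' G'' where
  injective := F.injective
  face := F.face
  interior := F.interior
  lattice := F.lattice
  index := by
    rw [Subgroup.subgroupOf_self]
    infer_instance
  preserves' := ⟨F.map_lattice, fun h hh w hw => F.map_cone h hh w hw⟩
  lift := fun d hd => F.induced d hd.1 hd.2

/-- The target of a birational contraction. -/
theorem IsBirational.famData (T : FamData L f G) (B : IsBirational L f G I π L' G') :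
    FamData L' (push f I π) G' :=
  T.push B.contractible B.surjective B.ker B.lattice B.map_lattice B.perm

/-- **Descent along rational contractions.** -/
theorem hasRPFD_rational [DiscreteTopology L'] [IsZLattice ℝ L'] [DiscreteTopology L'']
    [IsZLattice ℝ L''] (T : FamData L f G) (B : IsBirational L f G I π L' G')
    (F : IsFibration L' (movF (push f I π) ⊓ eff (range (push f I π))) G' p L'' G'')
    (h : HasRPFD L G (movF f ⊓ eff (range f))) :
    HasRPFD L'' G'' ((movF (push f I π) ⊓ eff (range (push f I π))).comap p) := by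
  have h1 := T.birational B.contractible B.surjective B.ker B.lattice B.map_lattice B.perm
    B.induced h
  have h2 := (B.famData T).divData.data.settingNE
  exact face_step h2 F.isFaceOf h1

end Pool.Agent.Lib.Pad47bbF
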