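import Pool.Agent.Lib.Pad47bbF.Face

/-!
Subquotients: faces of the cone of the invariants of a finite group, and the combination with
products.
-/

open Set Topology

namespace Pool.Agent.Lib.Pad47bbF

open Pool.Agent.Lib.Pad47bb Pool.Agent.Lib.Pad47bbP Pool.Agent.Lib.Pad47bbQ

/-- Subquotient data for `(V, L, K, G)`: a finite group `H` of linear automorphisms preserving `L`
and `K`; an injective linear map `p : W → V` whose image consists of `H`-invariant elements, such
that the elements of `K` in the image form a face of the cone of the `H`-invariant elements of `K`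
(if `x + y` is in the image for `H`-invariant `x, y ∈ K`, so is `x`) and have an interior in the
image; a subgroup `M` of `W` such that every element of `L` in the image of `p` has a positive
multiple in `p M`; a subgroup `D` of finite index of the group of the elements of `G` that commute
with `H` and stabilize the image of `p`; and a group `Γ'` preserving `M` and the preimage of `K`
such that every element of `D` restricts to an element of `Γ'`. -/
structure IsSubquotient {V W : Type*} [NormedAddCommGroup V] [NormedSpace ℝ V]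
    [NormedAddCommGroup W] [NormedSpace ℝ W] (L : Submodule ℤ V) (K : PointedCone ℝ V)
    (G H D : Subgroup (V ≃ₗ[ℝ] V)) (p : W →ₗ[ℝ] V) (M : Submodule ℤ W)
    (Γ' : Subgroup (W ≃ₗ[ℝ] W)) : Prop where
  finite : Finite H
  preserves : Preserves L K H
  injective : Function.Injective p
  invariant : ∀ h ∈ H, ∀ w, h (p w) = p w
  face : ∀ x ∈ K, (∀ h ∈ H, h x = x) → ∀ y ∈ K, (∀ h ∈ H, h y = y) →
    (∃ w, p w = x + y) → ∃ w, p w = x
  interior : (interior ((K.comap p : PointedCone ℝ W) : Set W)).Nonempty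
  lattice : ∀ x ∈ L, (∃ w, p w = x) → ∃ n : ℕ, 0 < n ∧ ∃ m ∈ M, p m = (n : ℝ) • x
  index : (D.subgroupOf (G ⊓ Subgroup.centralizer (H : Set (V ≃ₗ[ℝ] V)) ⊓
    stabRange p)).FiniteIndex
  preserves' : Preserves M (K.comap p) Γ'
  lift : ∀ d ∈ D, ∃ g ∈ Γ', ∀ w, p (g w) = d (p w)

section fix

variable {V : Type*} [NormedAddCommGroup V] [NormedSpace ℝ V] (H : Subgroup (V ≃ₗ[ℝ] V))

/-- the invariants -/
def fixSub : Submodule ℝ V where
  carrier := {x | ∀ h ∈ H, h x = x}
  add_mem' := by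
    intro x y hx hy h hh
    rw [map_add, hx h hh, hy h hh]
  zero_mem' := fun h _ => map_zero h
  smul_mem' := by
    intro c x hx h hh
    rw [map_smul, hx h hh]

theorem mem_fixSub {x : V} : x ∈ fixSub H ↔ ∀ h ∈ H, h x = x := Iff.rfl

/-- the invariant elements of the lattice -/
def fixLat (L : Submodule ℤ V) : Submodule ℤ (fixSub H) :=
  L.comap ((fixSub H).subtype.restrictScalars ℤ)

theorem mem_fixLat {L : Submodule ℤ V} {x : fixSub H} : x ∈ fixLat H L ↔ (x : V) ∈ L := Iff.rfl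

theorem discrete_fixLat (L : Submodule ℤ V) [DiscreteTopology L] :
    DiscreteTopology (fixLat H L) := by
  let φ : fixLat H L → L := fun x => ⟨((x : fixSub H) : V), x.2⟩
  refine DiscreteTopology.of_continuous_injective (f := φ) ?_ ?_
  · fun_prop
  · intro x y hxy
    apply Subtype.ext
    apply Subtype.ext
    exact congrArg (fun z : L => (z : V)) hxy

variable [Finite H]

theorem sum_mem_fixSub [Fintype H] (x : V) : ∑ h : H, (h : V ≃ₗ[ℝ] V) x ∈ fixSub H := by
  intro k hk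
  rw [map_sum]
  exact Fintype.sum_equiv (Equiv.mulLeft (⟨k, hk⟩ : H)) _ _ fun h => rfl

theorem isZLattice_fixLat (L : Submodule ℤ V) [DiscreteTopology L] [IsZLattice ℝ L]
    (hHL : ∀ h ∈ H, ∀ x ∈ L, h x ∈ L) :
    @IsZLattice ℝ _ (fixSub H) _ _ (fixLat H L) (discrete_fixLat H L) := by
  have := Fintype.ofFinite H
  have := discrete_fixLat H L
  refine ⟨?_⟩
  rw [eq_top_iff]
  rintro x -
  have hcard : (0 : ℝ) < Fintype.card H := by exact_mod_cast Fintype.card_pos
  -- averages of the elements of the span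
  let A : V →ₗ[ℝ] fixSub H :=
    LinearMap.codRestrict (fixSub H) (∑ h : H, ((h : V ≃ₗ[ℝ] V) : V →ₗ[ℝ] V)) (fun y => by
      rw [LinearMap.sum_apply]
      exact sum_mem_fixSub H y)
  have hA : ∀ y, ((A y : fixSub H) : V) = ∑ h : H, (h : V ≃ₗ[ℝ] V) y := by
    intro y
    show (∑ h : H, ((h : V ≃ₗ[ℝ] V) : V →ₗ[ℝ] V)) y = _
    rw [LinearMap.sum_apply]
    rfl
  have h1 : ∀ y : V, A y ∈ Submodule.span ℝ ((fixLat H L : Submodule ℤ (fixSub H)) : Set (fixSub H)) := by
    intro y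
    have hy : y ∈ Submodule.span ℝ (L : Set V) := by
      rw [IsZLattice.span_top (K := ℝ) (L := L)]
      trivial
    refine Submodule.span_induction (p := fun y _ => A y ∈ Submodule.span ℝ
      ((fixLat H L : Submodule ℤ (fixSub H)) : Set (fixSub H))) ?_ ?_ ?_ ?_ hy
    · intro z hz
      refine Submodule.subset_span ?_
      show ((A z : fixSub H) : V) ∈ L
      rw [hA]
      exact L.sum_mem fun h _ => hHL h h.2 z hz
    · rw [map_zero]; exact Submodule.zero_mem _
    · intro a b _ _ ha hb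
      rw [map_add]; exact Submodule.add_mem _ ha hb
    · intro c a _ ha
      rw [map_smul]; exact Submodule.smul_mem _ c ha
  have h2 : x = (Fintype.card H : ℝ)⁻¹ • A x := by
    apply Subtype.ext
    have h3 : ∀ h : H, (h : V ≃ₗ[ℝ] V) (x : V) = x := fun h => x.2 _ h.2
    rw [Submodule.coe_smul, hA, Finset.sum_congr rfl fun h _ => h3 h,
      Finset.sum_const, Finset.card_univ, ← Nat.cast_smul_eq_nsmul ℝ, smul_smul,
      inv_mul_cancel₀ hcard.ne', one_smul]
  rw [h2]
  exact Submodule.smul_mem _ _ (h1 _)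

omit [Finite H] in
/-- restriction to the invariants -/
theorem exists_restr {g : V ≃ₗ[ℝ] V} (hg : g ∈ Subgroup.centralizer (H : Set (V ≃ₗ[ℝ] V))) :
    ∃ g₀ : fixSub H ≃ₗ[ℝ] fixSub H, ∀ w : fixSub H, ((g₀ w : fixSub H) : V) = g w := by
  have hmap : ∀ k : V ≃ₗ[ℝ] V, k ∈ Subgroup.centralizer (H : Set (V ≃ₗ[ℝ] V)) →
      ∀ x ∈ fixSub H, k x ∈ fixSub H := by
    intro k hk x hx h hh
    have h1 := Subgroup.mem_centralizer_iff.1 hk h hh
    have h2 : (h * k) x = (k * h) x := by rw [h1]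
    have h3 : h (k x) = k (h x) := h2
    rw [h3, hx h hh]
  refine ⟨LinearEquiv.ofLinearMap ((g : V →ₗ[ℝ] V).restrict (hmap g hg))
    (((g⁻¹ : V ≃ₗ[ℝ] V) : V →ₗ[ℝ] V).restrict (hmap g⁻¹ (inv_mem hg))) ?_ ?_, fun w => rfl⟩
  · ext w
    exact g.apply_symm_apply (w : V)
  · ext w
    exact g.symm_apply_apply (w : V)

omit [Finite H] in
/-- the group of the restrictions to the invariants of the elements of `Γ` that commute
with `H` -/
def fixGroup (Γ : Subgroup (V ≃ₗ[ℝ] V)) : Subgroup (fixSub H ≃ₗ[ℝ] fixSub H) where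
  carrier := {g₀ | ∃ g ∈ Γ ⊓ Subgroup.centralizer (H : Set (V ≃ₗ[ℝ] V)),
    ∀ w : fixSub H, ((g₀ w : fixSub H) : V) = g w}
  mul_mem' := by
    rintro a b ⟨g, hg, hga⟩ ⟨g', hg', hgb⟩
    refine ⟨g * g', mul_mem hg hg', fun w => ?_⟩
    show ((a (b w) : fixSub H) : V) = g (g' w)
    rw [hga, hgb]
  one_mem' := ⟨1, one_mem _, fun w => rfl⟩
  inv_mem' := by
    rintro a ⟨g, hg, hga⟩
    refine ⟨g⁻¹, inv_mem hg, fun w => ?_⟩
    apply g.injective
    rw [← hga]
    have h1 : a (a⁻¹ w) = w := a.apply_symm_apply w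
    rw [h1]
    exact (g.apply_symm_apply (w : V)).symm

end fix

section step

variable {V : Type*} [NormedAddCommGroup V] [NormedSpace ℝ V] [FiniteDimensional ℝ V]
  {W : Type*} [NormedAddCommGroup W] [NormedSpace ℝ W] [FiniteDimensional ℝ W]

/-- Subquotients. -/
theorem sub_step {L : Submodule ℤ V} [DiscreteTopology L] [IsZLattice ℝ L]
    {M : Submodule ℤ W} [DiscreteTopology M] [IsZLattice ℝ M]
    {K : PointedCone ℝ V} {Γ : Subgroup (V ≃ₗ[ℝ] V)} (S : Setting L K Γ)
    {H D : Subgroup (V ≃ₗ[ℝ] V)} {p : W →ₗ[ℝ] V} {Γ' : Subgroup (W ≃ₗ[ℝ] W)}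
    (hF : IsSubquotient L K Γ H D p M Γ') (hΓ : HasRPFD L Γ K) :
    HasRPFD M Γ' (K.comap p) := by
  classical
  have := hF.finite
  have := Fintype.ofFinite H
  have hLd := discrete_fixLat H L
  have hLz := isZLattice_fixLat H L hF.preserves.1
  -- the invariants
  have hmemC : ∀ g ∈ Γ ⊓ Subgroup.centralizer (H : Set (V ≃ₗ[ℝ] V)),
      ∃ g₀ ∈ fixGroup H Γ, ∀ w : fixSub H, (fixSub H).subtype (g₀ w) = g ((fixSub H).subtype w) := by
    intro g hg
    obtain ⟨g₀, hg₀⟩ := exists_restr H hg.2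
    exact ⟨g₀, ⟨g, hg, hg₀⟩, hg₀⟩
  have hpresL : ∀ g₀ ∈ fixGroup H Γ, ∀ x ∈ fixLat H L, g₀ x ∈ fixLat H L := by
    rintro g₀ ⟨g, hg, hg₀⟩ x hx
    show ((g₀ x : fixSub H) : V) ∈ L
    rw [hg₀]
    exact S.map_lattice g hg.1 _ hx
  have hpresK : ∀ g₀ ∈ fixGroup H Γ, ∀ x : fixSub H, (fixSub H).subtype x ∈ K →
      (fixSub H).subtype (g₀ x) ∈ K := by
    rintro g₀ ⟨g, hg, hg₀⟩ x hx
    show ((g₀ x : fixSub H) : V) ∈ K
    rw [hg₀]
    exact S.map_cone g hg.1 _ hx
  have hRP : HasRPFD (fixLat H L) (fixGroup H Γ) (K.comap (fixSub H).subtype) := by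
    refine descent S H hF.preserves.1 hF.preserves.2 (fixSub H).subtype
      (Submodule.subtype_injective _) ?_ ?_ (Γ ⊓ Subgroup.centralizer (H : Set (V ≃ₗ[ℝ] V))) ?_
      (fixGroup H Γ) hpresL hpresK hmemC hΓ
    · intro x
      constructor
      · rintro ⟨w, rfl⟩
        exact w.2
      · intro hx
        exact ⟨⟨x, hx⟩, rfl⟩
    · intro x hx hxH
      exact ⟨1, one_pos, ⟨x, hxH⟩, hx, by rw [Nat.cast_one, one_smul]; rfl⟩
    · rw [Subgroup.subgroupOf_self]
      infer_instance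
  -- an invariant interior point
  have hint : (interior ((K.comap (fixSub H).subtype : PointedCone ℝ (fixSub H)) :
      Set (fixSub H))).Nonempty := by
    obtain ⟨z, hz⟩ := S.interior_nonempty
    have h1 : ∑ h : H, (h : V ≃ₗ[ℝ] V) z ∈ interior (K : Set V) := by
      rw [← Finset.add_sum_erase _ _ (Finset.mem_univ (1 : H))]
      refine interior_add_mem (interior_map_mem (hF.preserves.2 _ (1 : H).2) hz) ?_
      exact K.sum_mem fun h _ => hF.preserves.2 h h.2 z (interior_subset hz)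
    refine ⟨⟨_, sum_mem_fixSub H z⟩, ?_⟩
    rw [mem_interior]
    exact ⟨(fixSub H).subtype ⁻¹' interior (K : Set V),
      fun y hy => interior_subset (s := (K : Set V)) hy,
      isOpen_interior.preimage continuous_subtype_val, h1⟩
  have S₀ : Setting (fixLat H L) (K.comap (fixSub H).subtype) (fixGroup H Γ) := by
    refine ⟨?_, hint, hpresL, hpresK⟩
    intro x hx hx'
    have h1 : ∀ y ∈ closure ((K.comap (fixSub H).subtype : PointedCone ℝ (fixSub H)) :
        Set (fixSub H)), (y : V) ∈ closure (K : Set V) :=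
      fun y hy => map_mem_closure continuous_subtype_val hy fun z hz => hz
    apply Subtype.ext
    exact S.salient _ (h1 x hx) (h1 (-x) hx')
  -- the face
  let p₀ : W →ₗ[ℝ] fixSub H := LinearMap.codRestrict (fixSub H) p fun w h hh =>
    hF.invariant h hh w
  have hp₀ : ∀ w, ((p₀ w : fixSub H) : V) = p w := fun w => rfl
  have hcomap : (K.comap (fixSub H).subtype).comap p₀ = K.comap p := rfl
  have hran : ∀ x : fixSub H, (∃ w, p₀ w = x) ↔ ∃ w, p w = x := by
    intro x
    constructor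
    · rintro ⟨w, hw⟩
      exact ⟨w, by rw [← hp₀, hw]⟩
    · rintro ⟨w, hw⟩
      exact ⟨w, Subtype.ext (by rw [hp₀, hw])⟩
  rw [← hcomap]
  refine face_core S₀ ?_ ?_ hF.interior ?_ hF.preserves' ?_ hRP
  · intro a b hab
    apply hF.injective
    rw [← hp₀, ← hp₀, hab]
  · intro x hx y hy hxy
    rw [hran] at hxy ⊢
    exact hF.face x hx x.2 y hy y.2 hxy
  · intro x hx hx'
    rw [hran] at hx'
    obtain ⟨n, hn, m, hm, hmx⟩ := hF.lattice x hx hx'
    exact ⟨n, hn, m, hm, Subtype.ext hmx⟩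
  · obtain ⟨Q, hQfin, hQC, hQ⟩ := exists_finite_reps _ D hF.index
    have hex : ∀ q ∈ Q, ∃ q₀ : fixSub H ≃ₗ[ℝ] fixSub H, q₀ ∈ fixGroup H Γ ∧
        ∀ w : fixSub H, ((q₀ w : fixSub H) : V) = q w := by
      intro q hq
      obtain ⟨q₀, hq₀⟩ := exists_restr H (hQC hq).1.2
      exact ⟨q₀, ⟨q, (hQC hq).1, hq₀⟩, hq₀⟩
    choose! r hr hr' using hex
    refine ⟨r '' Q, hQfin.image r, ?_, ?_⟩
    · rintro _ ⟨q, hq, rfl⟩
      exact hr q hq
    · rintro k₀ ⟨⟨k, hk, hk₀⟩, hk'⟩
      have hkC : k⁻¹ ∈ Subgroup.centralizer (H : Set (V ≃ₗ[ℝ] V)) := inv_mem hk.2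
      have hks : k ∈ stabRange p := by
        rw [mem_stabRange]
        intro x
        constructor
        · rintro ⟨w, hw⟩
          have hx : x ∈ fixSub H := by
            obtain ⟨k₁, hk₁⟩ := exists_restr H hkC
            have h1 : x = k⁻¹ (p w) := by
              rw [hw]; exact (k.symm_apply_apply x).symm
            rw [h1, ← hp₀, ← hk₁]
            exact (k₁ (p₀ w)).2
          have h2 := (mem_stabRange.1 hk' ⟨x, hx⟩).1 ⟨w, Subtype.ext (by rw [hp₀, hw, hk₀])⟩
          exact (hran ⟨x, hx⟩).1 h2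
        · rintro ⟨w, rfl⟩
          have h2 := (mem_stabRange.1 hk' (p₀ w)).2 ⟨w, rfl⟩
          rw [hran, hk₀] at h2
          exact h2
      obtain ⟨d, hd, q, hq, hdq⟩ := hQ k ⟨hk, hks⟩
      obtain ⟨g, hg, hgd⟩ := hF.lift d hd
      refine ⟨r q, ⟨q, hq, rfl⟩, g, hg, fun w => Subtype.ext ?_⟩
      have h3 : (((r q)⁻¹ (p₀ w) : fixSub H) : V) = q⁻¹ (p w) := by
        apply q.injective
        rw [← hr' q hq]
        have h4 : r q ((r q)⁻¹ (p₀ w)) = p₀ w := (r q).apply_symm_apply _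
        rw [h4, hp₀]
        exact (q.apply_symm_apply (p w)).symm
      show p (g w) = ((k₀ ((r q)⁻¹ (p₀ w)) : fixSub H) : V)
      rw [hk₀, h3, hgd, hdq]
      show d (p w) = d (q (q⁻¹ (p w)))
      congr 1
      exact (q.apply_symm_apply (p w)).symm

end step

/-- Products and subquotients. -/
theorem prod_sub {ι : Type*} [Fintype ι] {V : ι → Type*} [∀ i, NormedAddCommGroup (V i)]
    [∀ i, NormedSpace ℝ (V i)] [∀ i, FiniteDimensional ℝ (V i)]
    {W : Type*} [NormedAddCommGroup W] [NormedSpace ℝ W] [FiniteDimensional ℝ W]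
    (L : ∀ i, Submodule ℤ (V i)) [∀ i, DiscreteTopology (L i)] [∀ i, IsZLattice ℝ (L i)]
    (M : Submodule ℤ W) [DiscreteTopology M] [IsZLattice ℝ M]
    (K : ∀ i, PointedCone ℝ (V i)) (Γ : ∀ i, Subgroup (V i ≃ₗ[ℝ] V i))
    (hS : ∀ i, Setting (L i) (K i) (Γ i)) (hΓ : ∀ i, HasRPFD (L i) (Γ i) (K i))
    (G H D : Subgroup ((∀ i, V i) ≃ₗ[ℝ] (∀ i, V i)))
    (hG : Preserves (prodLattice L) (prodCone K) G)
    (hG' : ∀ γ : ∀ i, V i ≃ₗ[ℝ] V i, (∀ i, γ i ∈ Γ i) → LinearEquiv.piCongrRight γ ∈ G)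
    (p : W →ₗ[ℝ] (∀ i, V i)) (Γ' : Subgroup (W ≃ₗ[ℝ] W))
    (hQ : IsSubquotient (prodLattice L) (prodCone K) G H D p M Γ') :
    HasRPFD M Γ' ((prodCone K).comap p) := by
  have := hQ.finite
  have hLd := discrete_prodLattice L
  classical
  have hLz := isZLattice_prodLattice L
  exact sub_step (setting_prod hS G hG.1 hG.2) hQ (hasRPFD_prod hS G hG.1 hG.2 hG' hΓ)

end Pool.Agent.Lib.Pad47bbF
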