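import Pool.Agent.Lib.Pad47bbD.Descent
import Pool.Agent.Lib.Pad47bbD.Fam
import Pool.Agent.Lib.Pad47bbF.Proj

/-!
Descent of rational polyhedral fundamental domains: push-forward modulo a contractible set of primes
(or modulo nothing), followed by a subquotient.
-/

open Set Topology

namespace Pool.Agent.Lib.Pad47bbF

open Pool.Agent.Lib.Pad47bb Pool.Agent.Lib.Pad47bbP Pool.Agent.Lib.Pad47bbQ
  Pool.Agent.Lib.Pad47bbD

variable {V : Type*} [NormedAddCommGroup V] [NormedSpace ℝ V]

/-- The finite set `S` may be contracted: it is empty, or `K` is the effective movable cone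
`movF f ∩ cone f` of a family `f` (`FamData`) and `S` is the set of the `f i`, `i ∈ I`, for a
contractible finite set `I` of indices. -/
def Contracts (L : Submodule ℤ V) (K : PointedCone ℝ V) (G : Subgroup (V ≃ₗ[ℝ] V))
    (S : Finset V) : Prop :=
  S = ∅ ∨ ∃ (ι : Type) (f : ι → V) (I : Finset ι), FamData L f G ∧
    K = movF f ⊓ eff (range f) ∧ ContractibleF f I ∧ (S : Set V) = f '' I

variable [FiniteDimensional ℝ V]
  {U : Type*} [NormedAddCommGroup U] [NormedSpace ℝ U] [FiniteDimensional ℝ U]
  {L : Submodule ℤ V} {K : PointedCone ℝ V} {G : Subgroup (V ≃ₗ[ℝ] V)} {S : Finset V}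
  {π : V →ₗ[ℝ] U} {L' : Submodule ℤ U} {G' : Subgroup (U ≃ₗ[ℝ] U)}

/-- The setting after a push-forward. -/
theorem setting_push (T : Setting L K G) (hC : Contracts L K G S)
    (Q : IsPush L K G S π L' G') : Setting L' (K.map π) G' := by
  rcases hC with hS | ⟨ι, f, I, D, rfl, hS, hSI⟩
  · have hker : ∀ x, π x = 0 → x = 0 := by
      intro x hx
      have h1 := (Q.ker x).1 hx
      rwa [hS, Finset.coe_empty, Submodule.span_empty, Submodule.mem_bot] at h1
    refine ⟨?_, ?_, Q.map_lattice, Q.map_cone⟩
    · have hsub : closure ((K.map π : PointedCone ℝ U) : Set U) ⊆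
          closure (π '' ((PointedCone.closure K : PointedCone ℝ V) : Set V)) := by
        refine closure_mono ?_
        rintro _ ⟨x, hx, rfl⟩
        exact ⟨x, subset_closure hx, rfl⟩
      have hsal := Pad47bbF.salient_image (M := PointedCone.closure K) (π := π) isClosed_closure
        (fun x hx hx' => T.salient x hx hx') (fun x _ hx => hker x hx)
      exact fun u hu hu' => hsal u (hsub hu) (hsub hu')
    · obtain ⟨e, he⟩ := T.interior_nonempty
      refine ⟨π e, ?_⟩
      rw [mem_interior]
      refine ⟨π '' interior (K : Set V), ?_,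
        (LinearMap.isOpenMap_of_finiteDimensional π Q.surj) _ isOpen_interior, ⟨e, he, rfl⟩⟩
      rintro _ ⟨x, hx, rfl⟩
      exact ⟨x, interior_subset hx, rfl⟩
  · classical
    have hS' : Contractible (range f) (movF f) (S : Set V) := by
      have h1 := hS.contractible
      rwa [Finset.coe_image, ← hSI] at h1
    exact D.divData.setting_map hS' Q

variable [DiscreteTopology L'] [IsZLattice ℝ L']

/-- Rational polyhedral fundamental domains descend along push-forwards. -/
theorem hasRPFD_push (T : Setting L K G) (h : HasRPFD L G K) (hC : Contracts L K G S)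
    (Q : IsPush L K G S π L' G') : HasRPFD L' G' (K.map π) := by
  classical
  have hT := setting_push T hC Q
  rcases hC with hS | ⟨ι, f, I, D, rfl, hS, hSI⟩
  · obtain ⟨R, ⟨s, hsL, rfl⟩, hcov, -⟩ := h
    have hind : ∀ g ∈ G, ∃ h ∈ G', ∀ x, h (π x) = π (g x) := by
      intro g hg
      refine Q.induced g hg fun D hD => ?_
      rw [hS] at hD
      exact absurd hD (Finset.notMem_empty D)
    have hmap : ∀ y ∈ PointedCone.hull ℝ (s : Set V),
        π y ∈ PointedCone.hull ℝ ((s.image π : Finset U) : Set U) := by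
      intro y hy
      obtain ⟨c, hc, rfl⟩ := mem_hull_finset.1 hy
      rw [map_sum]
      refine Submodule.sum_mem _ fun a ha => ?_
      rw [map_smul]
      exact PointedCone.smul_mem _ (hc a ha)
        (Submodule.subset_span (Finset.mem_coe.2 (Finset.mem_image_of_mem π ha)))
    have hsK : ∀ a ∈ s, a ∈ K := by
      intro a ha
      show a ∈ (K : Set V)
      rw [hcov]
      exact mem_biUnion (one_mem G) ⟨a, Submodule.subset_span ha, rfl⟩
    have hle : PointedCone.hull ℝ ((s.image π : Finset U) : Set U) ≤ K.map π := by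
      refine Submodule.span_le.2 ?_
      intro u hu
      obtain ⟨a, ha, rfl⟩ := Finset.mem_image.1 (Finset.mem_coe.1 hu)
      exact ⟨a, hsK a ha, rfl⟩
    refine exists_fundDomain hT (P₁ := PointedCone.hull ℝ ((s.image π : Finset U) : Set U))
      ⟨_, ?_, rfl⟩ ?_
    · intro u hu
      obtain ⟨a, ha, rfl⟩ := Finset.mem_image.1 (Finset.mem_coe.1 hu)
      exact Q.lattice a (hsL ha)
    · apply Subset.antisymm
      · rintro _ ⟨x, hx, rfl⟩
        have hx' : x ∈ (K : Set V) := hx
        rw [hcov] at hx'
        simp only [mem_iUnion] at hx'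
        obtain ⟨g, hg, y, hy, rfl⟩ := hx'
        obtain ⟨h, hh, hgh⟩ := hind g hg
        exact mem_biUnion hh ⟨π y, hmap y hy, hgh y⟩
      · intro u hu
        simp only [mem_iUnion] at hu
        obtain ⟨g, hg, y, hy, rfl⟩ := hu
        exact Q.map_cone g hg y (hle hy)
  · have hS' : Contractible (range f) (movF f) (S : Set V) := by
      have h1 := hS.contractible
      rwa [Finset.coe_image, ← hSI] at h1
    exact D.divData.descent h hS' Q

variable {W : Type*} [NormedAddCommGroup W] [NormedSpace ℝ W] [FiniteDimensional ℝ W]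

/-- Push-forwards followed by subquotients. -/
theorem hasRPFD_total (T : Setting L K G) (h : HasRPFD L G K) (hC : Contracts L K G S)
    (Q : IsPush L K G S π L' G') {H D : Subgroup (U ≃ₗ[ℝ] U)} {p : W →ₗ[ℝ] U}
    {L'' : Submodule ℤ W} [DiscreteTopology L''] [IsZLattice ℝ L'']
    {G'' : Subgroup (W ≃ₗ[ℝ] W)} (F : IsSubquotient L' (K.map π) G' H D p L'' G'') :
    HasRPFD L'' G'' ((K.map π).comap p) :=
  sub_step (setting_push T hC Q) F (hasRPFD_push T h hC Q)

end Pool.Agent.Lib.Pad47bbF
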